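import Mathlib

set_option autoImplicit false

namespace Pool.Agent.H.MP_73fd2f_co

noncomputable def t : ℝ := (1 + Real.sqrt 5) / 2

lemma t_sq : t * t = t + 1 := by
  have h : Real.sqrt 5 * Real.sqrt 5 = 5 := Real.mul_self_sqrt (by norm_num)
  unfold t; nlinarith

lemma t_pos : 1 / 2 < t := by
  have h : 0 < Real.sqrt 5 := Real.sqrt_pos.2 (by norm_num)
  unfold t; linarith

lemma t_lb : 1618 / 1000 < t := by
  have h1 := t_sq; have h2 := t_pos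
  by_contra h; push Not at h; nlinarith

lemma t_ub : t < 1619 / 1000 := by
  have h1 := t_sq; have h2 := t_pos
  by_contra h; push Not at h; nlinarith

noncomputable def ev (x : ℤ × ℤ) : ℝ := (x.1 : ℝ) + (x.2 : ℝ) * t

def mu (x y : ℤ × ℤ) : ℤ × ℤ := (x.1 * y.1 + x.2 * y.2, x.1 * y.2 + x.2 * y.1 + x.2 * y.2)

def ad (x y : ℤ × ℤ) : ℤ × ℤ := (x.1 + y.1, x.2 + y.2)

def ps (x : ℤ × ℤ) : Bool :=
  if 0 ≤ x.2 then decide (0 < 1000 * x.1 + 1618 * x.2) else decide (0 < 1000 * x.1 + 1619 * x.2)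

lemma ev_mu (x y : ℤ × ℤ) : ev (mu x y) = ev x * ev y := by
  unfold ev mu; push_cast; linear_combination (-(x.2 : ℝ) * y.2) * t_sq

lemma ev_ad (x y : ℤ × ℤ) : ev (ad x y) = ev x + ev y := by
  unfold ev ad; push_cast; ring

lemma ev_pos (x : ℤ × ℤ) (h : ps x = true) : 0 < ev x := by
  unfold ps at h
  unfold ev
  have h1 := t_lb; have h2 := t_ub
  split_ifs at h with h0
  · have h3 : (0 : ℝ) < 1000 * x.1 + 1618 * x.2 := by exact_mod_cast of_decide_eq_true h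
    have h4 : (0 : ℝ) ≤ x.2 := by exact_mod_cast h0
    nlinarith [mul_nonneg h4 (sub_nonneg.2 h1.le)]
  · have h3 : (0 : ℝ) < 1000 * x.1 + 1619 * x.2 := by exact_mod_cast of_decide_eq_true h
    have h4 : (x.2 : ℝ) ≤ 0 := by exact_mod_cast (not_le.1 h0).le
    nlinarith [mul_nonneg (neg_nonneg.2 h4) (sub_nonneg.2 h2.le)]

def PL : List (List (ℤ × ℤ)) :=
  [[(1, 0), (0, 0), (0, 0), (0, 0), (0, 0), (0, 0), (0, 0)],
   [(1, 0), (-1, 1), (0, 0), (1, -1), (-1, 1), (1, -1), (0, 0)],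
   [(0, 0), (1, 0), (0, 0), (0, 0), (0, 0), (0, 0), (0, 0)],
   [(2, -1), (2, -1), (-2, 1), (0, 0), (0, 0), (-2, 1), (1, 0)],
   [(-1, 1), (-3, 2), (3, -2), (3, -2), (-3, 2), (5, -3), (-3, 2)],
   [(0, 0), (0, 0), (1, 0), (0, 0), (0, 0), (0, 0), (0, 0)],
   [(-1, 1), (-1, 1), (3, -2), (-2, 1), (4, -2), (1, -1), (-3, 2)],
   [(0, 0), (0, 0), (0, 0), (1, 0), (0, 0), (0, 0), (0, 0)],
   [(0, 0), (0, 0), (0, 0), (0, 0), (1, 0), (0, 0), (0, 0)],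
   [(0, 0), (0, 0), (0, 0), (0, 0), (0, 0), (1, 0), (0, 0)],
   [(0, 0), (0, 0), (0, 0), (0, 0), (0, 0), (0, 0), (1, 0)]]
def UL : List (ℕ × List (ℤ × ℤ)) :=
  [(91, [(0, 1), (0, 1), (0, 0), (-1, 1), (1, 0), (0, 0), (1, 0), (0, 0), (0, 0), (0, 0), (0, 0)]),
   (1112, [(0, 0), (0, 0), (0, 0), (1, 0), (-3, 2), (0, 0), (-3, 2), (0, 0), (0, 0), (0, 0), (1, 0)]),
   (338, [(0, 0), (-1, 1), (0, 0), (0, 0), (-3, 2), (0, 0), (4, -2), (0, 0), (1, 0), (0, 0), (0, 0)]),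
   (1064, [(0, 0), (0, 0), (0, 0), (-1, 1), (0, 0), (1, 0), (0, 0), (0, 0), (0, 0), (0, 0), (1, 0)]),
   (448, [(0, 0), (0, 0), (0, 0), (0, 0), (0, 0), (0, 0), (2, -1), (1, 0), (1, 0), (0, 0), (0, 0)]),
   (102, [(0, 0), (0, 1), (1, 1), (0, 0), (0, 0), (1, 1), (1, 0), (0, 0), (0, 0), (0, 0), (0, 0)]),
   (204, [(0, 0), (0, 0), (1, 0), (2, -1), (0, 0), (0, 0), (-3, 2), (1, 0), (0, 0), (0, 0), (0, 0)]),
   (153, [(-1, 1), (0, 0), (0, 0), (-3, 2), (5, -3), (0, 0), (0, 0), (1, 0), (0, 0), (0, 0), (0, 0)]),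
   (1059, [(1, 0), (1, 0), (0, 0), (0, 0), (0, 0), (2, 1), (0, 0), (0, 0), (0, 0), (0, 0), (1, 0)]),
   (532, [(0, 0), (0, 0), (1, 0), (0, 0), (2, -1), (0, 0), (0, 0), (0, 0), (0, 0), (1, 0), (0, 0)]),
   (531, [(1, 0), (2, -1), (0, 0), (0, 0), (4, -2), (0, 0), (0, 0), (0, 0), (0, 0), (1, 0), (0, 0)]),
   (417, [(0, 1), (0, 0), (0, 0), (0, 0), (0, 0), (0, 1), (0, 0), (2, 1), (1, 0), (0, 0), (0, 0)]),
   (676, [(0, 0), (0, 0), (1, 1), (0, 0), (0, 0), (0, 1), (0, 0), (0, 1), (0, 0), (1, 0), (0, 0)]),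
   (2046, [(0, 0), (5, -3), (2, 0), (2, -1), (2, -1), (-6, 5), (-3, 2), (1, 0), (4, -2), (8, -4), (1, 0)]),
   (2045, [(2, -1), (0, 0), (2, -1), (5, -3), (-2, 2), (2, -1), (-1, 1), (1, 0), (1, 1), (1, 1), (1, 0)]),
   (2043, [(0, 1), (2, -1), (0, 0), (-3, 2), (8, -4), (1, 0), (-1, 1), (2, 0), (1, 1), (1, 1), (1, 0)]),
   (2039, [(-1, 1), (-3, 2), (2, -1), (0, 0), (-2, 2), (1, 0), (-1, 1), (1, 0), (1, 1), (1, 1), (1, 0)]),
   (2031, [(2, -1), (5, -3), (2, -1), (5, -3), (0, 0), (-4, 4), (2, -1), (2, 0), (5, -2), (7, -4), (1, 0)]),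
   (2015, [(-1, 1), (1, 0), (0, 1), (-5, 4), (6, -3), (0, 0), (3, -1), (1, 0), (1, 0), (1, 0), (1, 0)]),
   (1983, [(1, 0), (5, -3), (2, -1), (2, -1), (5, -3), (-4, 4), (0, 0), (2, 0), (4, -2), (7, -4), (1, 0)]),
   (1919, [(-1, 1), (1, 0), (1, 0), (-4, 3), (6, -3), (1, 1), (-4, 3), (0, 0), (0, 1), (2, 0), (2, 0)]),
   (1791, [(3, -1), (2, -1), (2, -1), (6, -3), (1, 0), (2, -1), (-3, 2), (1, 0), (0, 0), (1, 0), (1, 0)]),
   (1535, [(2, -1), (-1, 1), (2, -1), (6, -3), (-6, 4), (2, -1), (1, 0), (1, 0), (1, 0), (0, 0), (1, 0)]),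
   (1023, [(2, -1), (-1, 1), (3, -1), (5, -3), (-1, 1), (2, -1), (4, -2), (1, 0), (1, 0), (1, 0), (0, 0)])]

def P (i : ℕ) (k : ℕ) : ℤ × ℤ := (PL.getD i []).getD k (0, 0)

def g (u : List (ℤ × ℤ)) (i : ℕ) : ℤ × ℤ := u.getD i (0, 0)

def bb (k : ℕ) : ℕ := [0, 2, 5, 7, 8, 9, 10].getD k 0

def sm (u : List (ℤ × ℤ)) (i : ℕ) : ℤ × ℤ :=
  ad (ad (ad (ad (ad (ad (mu (g u (bb 0)) (P i 0)) (mu (g u (bb 1)) (P i 1))) (mu (g u (bb 2)) (P i 2)))
    (mu (g u (bb 3)) (P i 3))) (mu (g u (bb 4)) (P i 4))) (mu (g u (bb 5)) (P i 5))) (mu (g u (bb 6)) (P i 6))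

def chk (x : ℕ × List (ℤ × ℤ)) : Bool :=
  (List.range 11).all fun i => decide (sm x.2 i = g x.2 i) &&
    (if x.1.testBit i then ps (g x.2 i) else decide (g x.2 i = (0, 0)))

lemma all_chk : UL.all chk = true := by decide +kernel

noncomputable def p (i : Fin 11) (k : Fin 7) : ℝ := ev (P i k)

/-- the set `S` is the vertex set of a face of the point family `x`. -/
def Fa {d : ℕ} (x : Fin 11 → Fin d → ℝ) (S : Set (Fin 11)) : Prop :=
  ∃ a : Fin d → ℝ, ∃ c : ℝ, ∀ i : Fin 11, (∑ k, a k * x i k) ≤ c ∧ (i ∈ S ↔ (∑ k, a k * x i k) = c)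

lemma face_of_chk (x : ℕ × List (ℤ × ℤ)) (h : chk x = true) :
    Fa p {i | x.1.testBit i = false} := by
  refine ⟨fun k => - ev (g x.2 (bb k)), 0, fun i => ?_⟩
  have hi := List.all_eq_true.1 h i (List.mem_range.2 i.2)
  rw [Bool.and_eq_true] at hi
  obtain ⟨h1, h2⟩ := hi
  have h1' := of_decide_eq_true h1
  have e : (∑ k : Fin 7, - ev (g x.2 (bb k)) * p i k) = - ev (g x.2 i) := by
    rw [← h1', Fin.sum_univ_seven]
    simp only [sm, ev_ad, ev_mu, p]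
    norm_num
    ring
  rw [e]
  by_cases hb : x.1.testBit i = true
  · rw [if_pos hb] at h2
    have := ev_pos _ h2
    refine ⟨by linarith, ?_⟩
    simp only [Set.mem_ofPred_eq, hb]
    constructor
    · intro h; cases h
    · intro h; linarith
  · rw [if_neg hb] at h2
    have h3 := of_decide_eq_true h2
    rw [h3]
    simp only [ev, Set.mem_ofPred_eq]
    simp [hb]

lemma face_mask (m : ℕ) (h : m ∈ UL.map Prod.fst) : Fa p {i | m.testBit i = false} := by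
  obtain ⟨x, hx, rfl⟩ := List.mem_map.1 h
  exact face_of_chk x (List.all_eq_true.1 all_chk x hx)

lemma vert (i : Fin 11) : Fa p {i} := by
  have h : ∀ i : Fin 11, (2047 - 2 ^ (i : ℕ)) ∈ UL.map Prod.fst ∧
      ∀ j : Fin 11, ((2047 - 2 ^ (i : ℕ)).testBit j = false ↔ j = i) := by decide +kernel
  have := face_mask _ (h i).1
  convert this using 1
  ext j
  simp [(h i).2 j]

lemma inj : Function.Injective p := by
  intro i j hij
  obtain ⟨a, c, h⟩ := vert i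
  have h1 := (h i).2.1 rfl
  rw [hij] at h1
  exact ((h j).2.2 h1).symm

lemma cvx (i : Fin 11) : p i ∉ convexHull ℝ (p '' {j | j ≠ i}) := by
  obtain ⟨a, c, h⟩ := vert i
  intro hm
  have hc : Convex ℝ {x : Fin 7 → ℝ | (∑ k, a k * x k) < c} := by
    apply convex_halfSpace_lt
    constructor
    · intro x y; simp [mul_add, Finset.sum_add_distrib]
    · intro r x; simp [Finset.mul_sum]; exact Finset.sum_congr rfl fun k _ => by ring
  have hs : p '' {j | j ≠ i} ⊆ {x : Fin 7 → ℝ | (∑ k, a k * x k) < c} := by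
    rintro _ ⟨j, hj, rfl⟩
    exact lt_of_le_of_ne (h j).1 fun e => hj ((h j).2.2 e)
  have := convexHull_min hs hc hm
  exact (ne_of_lt this) ((h i).2.1 rfl)

/-- a face of `p` containing `2,5,7,8,9,10` and one of `1,3,4,6` contains `0`. -/
lemma cover (S : Set (Fin 11)) (hS : Fa p S) (h2 : (2 : Fin 11) ∈ S) (h5 : (5 : Fin 11) ∈ S)
    (h7 : (7 : Fin 11) ∈ S) (h8 : (8 : Fin 11) ∈ S) (h9 : (9 : Fin 11) ∈ S) (h10 : (10 : Fin 11) ∈ S)
    (hb : (1 : Fin 11) ∈ S ∨ (3 : Fin 11) ∈ S ∨ (4 : Fin 11) ∈ S ∨ (6 : Fin 11) ∈ S) :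
    (0 : Fin 11) ∈ S := by
  obtain ⟨a, c, h⟩ := hS
  have e2 := (h 2).2.1 h2
  have e5 := (h 5).2.1 h5
  have e7 := (h 7).2.1 h7
  have e8 := (h 8).2.1 h8
  have e9 := (h 9).2.1 h9
  have e10 := (h 10).2.1 h10
  have h1 := t_lb; have h2 := t_ub
  apply (h 0).2.2
  simp [Fin.sum_univ_seven, p, P, PL, ev] at e2 e5 e7 e8 e9 e10 ⊢
  rcases hb with hb | hb | hb | hb
  all_goals
    have e := (h _).2.1 hb
    simp [Fin.sum_univ_seven, p, P, PL, ev, e2, e5, e7, e8, e9, e10] at e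
  · linarith
  · have : (a 0 - c) * (2 - t) = 0 := by linarith
    rcases mul_eq_zero.1 this with h | h <;> linarith
  · have : (a 0 - c) * (t - 1) = 0 := by linarith
    rcases mul_eq_zero.1 this with h | h <;> linarith
  · have : (a 0 - c) * (t - 1) = 0 := by linarith
    rcases mul_eq_zero.1 this with h | h <;> linarith

end Pool.Agent.H.MP_73fd2f_co
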