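import Mathlib
import Pool.Agent.H.MP_73fd2f_co.A

set_option autoImplicit false

namespace Pool.Agent.H.MP_73fd2f_co

/-- value vectors of affine functions -/
def InW {d : ℕ} (x : Fin 11 → Fin d → ℝ) (w : Fin 11 → ℝ) : Prop :=
  ∃ a : Fin d → ℝ, ∃ c : ℝ, ∀ i : Fin 11, w i = c - ∑ k, a k * x i k

lemma InW.comb {d : ℕ} {x : Fin 11 → Fin d → ℝ} {u w : Fin 11 → ℝ} (hu : InW x u) (hw : InW x w)
    (r s : ℝ) : InW x (fun i => r * u i + s * w i) := by
  obtain ⟨a, c, h⟩ := hu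
  obtain ⟨a', c', h'⟩ := hw
  refine ⟨fun k => r * a k + s * a' k, r * c + s * c', fun i => ?_⟩
  beta_reduce
  rw [h, h']
  simp only [add_mul, Finset.sum_add_distrib, mul_assoc, ← Finset.mul_sum]
  ring

lemma fa_of_inW {d : ℕ} {x : Fin 11 → Fin d → ℝ} {w : Fin 11 → ℝ} (hw : InW x w)
    (h0 : ∀ i, 0 ≤ w i) : Fa x {i | w i = 0} := by
  obtain ⟨a, c, h⟩ := hw
  refine ⟨a, c, fun i => ⟨by linarith [h0 i, h i], ?_⟩⟩
  simp only [Set.mem_ofPred_eq]
  constructor <;> intro e <;> linarith [h i]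

lemma inW_of_fa {d : ℕ} {x : Fin 11 → Fin d → ℝ} (m : ℕ) (h : Fa x {i | m.testBit i = false}) :
    ∃ w, InW x w ∧ ∀ i : Fin 11, if m.testBit i then 0 < w i else w i = 0 := by
  obtain ⟨a, c, h⟩ := h
  refine ⟨fun i => c - ∑ k, a k * x i k, ⟨a, c, fun _ => rfl⟩, fun i => ?_⟩
  have h1 := (h i).1
  have h2 := (h i).2
  simp only [Set.mem_ofPred_eq] at h2
  split_ifs with hb
  · have : (∑ k, a k * x i k) ≠ c := fun e => by simp [hb] at h2; exact h2 e
    have := lt_of_le_of_ne h1 this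
    linarith
  · have := h2.1 (by simpa using hb)
    linarith

lemma zero_aux {d : ℕ} {x : Fin 11 → Fin d → ℝ} (H : ∀ S, Fa p S ↔ Fa x S) (w : Fin 11 → ℝ)
    (hw : InW x w) (h0 : w 0 = 0) (h2 : w 2 = 0) (h5 : w 5 = 0) (h7 : w 7 = 0) (h8 : w 8 = 0)
    (h9 : w 9 = 0) (h10 : w 10 = 0) (b : Fin 11) : w b ≤ 0 := by
  by_contra hb
  push Not at hb
  obtain ⟨u, hu, hs⟩ := inW_of_fa 91 ((H _).1 (face_mask 91 (by decide +kernel)))
  have u0 : 0 < u 0 := hs 0
  have u1 : 0 < u 1 := hs 1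
  have u2 : u 2 = 0 := hs 2
  have u3 : 0 < u 3 := hs 3
  have u4 : 0 < u 4 := hs 4
  have u5 : u 5 = 0 := hs 5
  have u6 : 0 < u 6 := hs 6
  have u7 : u 7 = 0 := hs 7
  have u8 : u 8 = 0 := hs 8
  have u9 : u 9 = 0 := hs 9
  have u10 : u 10 = 0 := hs 10
  obtain ⟨c, hc, hm⟩ := Finset.exists_max_image ({1, 3, 4, 6} : Finset (Fin 11)) (fun i => w i / u i)
    ⟨1, by simp⟩
  have hpos : ∀ i ∈ ({1, 3, 4, 6} : Finset (Fin 11)), 0 < u i := by
    intro i hi
    simp only [Finset.mem_insert, Finset.mem_singleton] at hi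
    rcases hi with rfl | rfl | rfl | rfl <;> assumption
  have hbm : b ∈ ({1, 3, 4, 6} : Finset (Fin 11)) := by
    fin_cases b <;> simp_all
  have hr : 0 < w c / u c := lt_of_lt_of_le (div_pos hb (hpos b hbm)) (hm b hbm)
  have hz := hu.comb hw (w c / u c) (-1)
  have hge : ∀ i ∈ ({1, 3, 4, 6} : Finset (Fin 11)), 0 ≤ w c / u c * u i + -1 * w i := by
    intro i hi
    have := hm i hi
    rw [div_le_iff₀ (hpos i hi)] at this
    linarith
  have hnn : ∀ i, 0 ≤ w c / u c * u i + -1 * w i := by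
    intro i
    by_cases hi : i ∈ ({1, 3, 4, 6} : Finset (Fin 11))
    · exact hge i hi
    · have := mul_pos hr u0
      fin_cases i <;> simp_all
      linarith
  have hf := (H _).2 (fa_of_inW hz hnn)
  have hcz : w c / u c * u c + -1 * w c = 0 := by
    rw [div_mul_cancel₀ _ (hpos c hc).ne']; ring
  have := cover _ hf (by simp [u2, h2]) (by simp [u5, h5]) (by simp [u7, h7]) (by simp [u8, h8])
    (by simp [u9, h9]) (by simp [u10, h10]) (by
      simp only [Finset.mem_insert, Finset.mem_singleton] at hc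
      rcases hc with rfl | rfl | rfl | rfl
      · exact Or.inl hcz
      · exact Or.inr (Or.inl hcz)
      · exact Or.inr (Or.inr (Or.inl hcz))
      · exact Or.inr (Or.inr (Or.inr hcz)))
  simp only [Set.mem_ofPred_eq] at this
  have h3 := mul_pos hr u0
  rw [h0] at this
  linarith

lemma zero_all {d : ℕ} {x : Fin 11 → Fin d → ℝ} (H : ∀ S, Fa p S ↔ Fa x S) (w : Fin 11 → ℝ)
    (hw : InW x w) (h0 : w 0 = 0) (h2 : w 2 = 0) (h5 : w 5 = 0) (h7 : w 7 = 0) (h8 : w 8 = 0)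
    (h9 : w 9 = 0) (h10 : w 10 = 0) (b : Fin 11) : w b = 0 := by
  have h1 := zero_aux H w hw h0 h2 h5 h7 h8 h9 h10 b
  have h3 := zero_aux H _ (hw.comb hw (-1) 0) (by simp [h0]) (by simp [h2]) (by simp [h5])
    (by simp [h7]) (by simp [h8]) (by simp [h9]) (by simp [h10]) b
  linarith

def bf : Fin 7 → Fin 11 := ![0, 2, 5, 7, 8, 9, 10]

lemma rat_comb {e : ℕ} (q : Fin 11 → Fin e → ℚ)
    (H : ∀ S, Fa p S ↔ Fa (fun i k => ((q i k : ℚ) : ℝ)) S) (b : Fin 11) :
    ∃ m : Fin 7 → ℚ, ∀ w, InW (fun i k => ((q i k : ℚ) : ℝ)) w → w b = ∑ j, (m j : ℝ) * w (bf j) := by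
  let Q : Fin 11 → Option (Fin e) → ℚ := fun i o => o.elim 1 (q i)
  have hmem : Q b ∈ Submodule.span ℚ (Set.range fun j => Q (bf j)) := by
    by_contra hn
    obtain ⟨f, hf, hk⟩ := Submodule.exists_le_ker_of_notMem hn
    let E : Option (Fin e) → ℚ := fun o => f fun j => if o = j then 1 else 0
    have hfE : ∀ i, f (Q i) = E none + ∑ k, q i k * E (some k) := by
      intro i
      rw [LinearMap.pi_apply_eq_sum_univ, Fintype.sum_option]
      simp [Q, E]
    have hw : InW (fun i k => ((q i k : ℚ) : ℝ)) (fun i => (f (Q i) : ℝ)) := by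
      refine ⟨fun k => - (E (some k) : ℝ), (E none : ℝ), fun i => ?_⟩
      beta_reduce
      rw [hfE]
      push_cast
      simp only [neg_mul, Finset.sum_neg_distrib, sub_neg_eq_add]
      simp only [mul_comm]
    have hz : ∀ j, f (Q (bf j)) = 0 := fun j => hk (Submodule.subset_span ⟨j, rfl⟩)
    have := zero_all H _ hw (by exact_mod_cast hz 0) (by exact_mod_cast hz 1) (by exact_mod_cast hz 2)
      (by exact_mod_cast hz 3) (by exact_mod_cast hz 4) (by exact_mod_cast hz 5)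
      (by exact_mod_cast hz 6) b
    exact hf (by exact_mod_cast this)
  obtain ⟨m, hm⟩ := (Submodule.mem_span_range_iff_exists_fun ℚ).1 hmem
  refine ⟨m, ?_⟩
  rintro w ⟨a, c, h⟩
  have h1 : ∑ j, (m j : ℝ) = 1 := by
    have := congrFun hm none
    simp [Q] at this
    exact_mod_cast this
  have h2 : ∀ k, (q b k : ℝ) = ∑ j, (m j : ℝ) * q (bf j) k := by
    intro k
    have := congrFun hm (some k)
    simp [Q] at this
    exact_mod_cast this.symm
  simp only [h, h2, mul_sub, Finset.sum_sub_distrib, ← Finset.sum_mul, h1, Finset.mul_sum]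
  rw [Finset.sum_comm]
  simp only [one_mul, sub_right_inj]
  exact Finset.sum_congr rfl fun j _ => Finset.sum_congr rfl fun k _ => by ring

lemma no_golden (A B : ℚ) (hB : B ≠ 0) (h : A * A - B * B = A * B) : False := by
  have h5 : ((2 * A - B) / B) ^ 2 = 5 := by
    field_simp
    linarith
  have hi : Irrational (Real.sqrt (5 : ℕ)) := Nat.Prime.irrational_sqrt (by norm_num)
  apply hi
  refine ⟨|(2 * A - B) / B|, ?_⟩
  have : ((5 : ℕ) : ℝ) = (((2 * A - B) / B : ℚ) : ℝ) ^ 2 := by exact_mod_cast h5.symm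
  rw [this, Real.sqrt_sq_eq_abs]
  push_cast
  rfl

end Pool.Agent.H.MP_73fd2f_co
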