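import Mathlib
import Pool.Agent.H.MP_73fd2f_co.B

set_option autoImplicit false

namespace Pool.Agent.H.MP_73fd2f_co

lemma neg_of {x y u v : ℝ} (h : 0 = x * u + y * v) (hu : 0 < u) (hv : 0 < v) (hy : 0 < y) : x < 0 := by
  by_contra hx
  push Not at hx
  nlinarith [mul_nonneg hx hu.le, mul_pos hy hv]

lemma pos_of {x y u v z : ℝ} (h : z = x * u + y * v) (hz : 0 ≤ z) (hu : 0 < u) (hv : 0 < v)
    (hy : y < 0) : 0 < x := by
  by_contra hx
  push Not at hx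
  nlinarith [mul_nonneg (neg_nonneg.2 hx) hu.le, mul_pos (neg_pos.2 hy) hv]

lemma cross {x y x' y' u v : ℝ} (h : 0 = x * u + y * v) (h' : 0 = x' * u + y' * v) (hu : 0 < u) :
    x * y' = x' * y := by
  apply mul_right_cancel₀ hu.ne'
  linear_combination (-y') * h + y * h'

lemma pos_of_mul_pos_right' {x u z : ℝ} (h : z = x * u) (hz : 0 < z) (hu : 0 < u) : 0 < x := by
  by_contra hx
  push Not at hx
  nlinarith [mul_nonneg (neg_nonneg.2 hx) hu.le]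

lemma alg (a0 a2 a5 a7 a8 a9 a10 b0 b2 b5 b7 b8 b9 b10 c0 c2 c5 c7 c8 c9 c10 d0 d2 d5 d7 d8 d9 d10 : ℝ)
    (H : ∀ m : ℕ, m ∈ UL.map Prod.fst → ∃ w : Fin 11 → ℝ,
      (∀ i : Fin 11, if m.testBit i then 0 < w i else w i = 0) ∧
      w 1 = a0 * w 0 + a2 * w 2 + a5 * w 5 + a7 * w 7 + a8 * w 8 + a9 * w 9 + a10 * w 10 ∧
      w 3 = b0 * w 0 + b2 * w 2 + b5 * w 5 + b7 * w 7 + b8 * w 8 + b9 * w 9 + b10 * w 10 ∧
      w 4 = c0 * w 0 + c2 * w 2 + c5 * w 5 + c7 * w 7 + c8 * w 8 + c9 * w 9 + c10 * w 10 ∧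
      w 6 = d0 * w 0 + d2 * w 2 + d5 * w 5 + d7 * w 7 + d8 * w 8 + d9 * w 9 + d10 * w 10) :
    c7 * d5 ≠ 0 ∧ d7 * c5 * (d7 * c5) - c7 * d5 * (c7 * d5) = d7 * c5 * (c7 * d5) := by
  have k1 : a10 = 0 ∧ 0 < c10 ∧ 0 < d10 := by
    obtain ⟨w, s, e1, e3, e4, e6⟩ := H 1112 (by decide +kernel)
    have z0 : w 0 = 0 := s 0
    have z1 : w 1 = 0 := s 1
    have z2 : w 2 = 0 := s 2
    have p3 : 0 < w 3 := s 3
    have p4 : 0 < w 4 := s 4
    have z5 : w 5 = 0 := s 5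
    have p6 : 0 < w 6 := s 6
    have z7 : w 7 = 0 := s 7
    have z8 : w 8 = 0 := s 8
    have z9 : w 9 = 0 := s 9
    have p10 : 0 < w 10 := s 10
    simp only [z0, z1, z2, z5, z7, z8, z9, mul_zero, add_zero, zero_add] at e1 e3 e4 e6
    refine ⟨?_, pos_of_mul_pos_right' e4 p4 p10, pos_of_mul_pos_right' e6 p6 p10⟩
    exact (mul_eq_zero.1 e1.symm).resolve_right p10.ne'
  obtain ⟨a10z, c10p, d10p⟩ := k1
  have k2 : 0 < a8 ∧ b8 = 0 ∧ 0 < c8 := by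
    obtain ⟨w, s, e1, e3, e4, e6⟩ := H 338 (by decide +kernel)
    have z0 : w 0 = 0 := s 0
    have p1 : 0 < w 1 := s 1
    have z2 : w 2 = 0 := s 2
    have z3 : w 3 = 0 := s 3
    have p4 : 0 < w 4 := s 4
    have z5 : w 5 = 0 := s 5
    have p6 : 0 < w 6 := s 6
    have z7 : w 7 = 0 := s 7
    have p8 : 0 < w 8 := s 8
    have z9 : w 9 = 0 := s 9
    have z10 : w 10 = 0 := s 10
    simp only [z0, z2, z3, z5, z7, z9, z10, mul_zero, add_zero, zero_add] at e1 e3 e4 e6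
    refine ⟨pos_of_mul_pos_right' e1 p1 p8, ?_, pos_of_mul_pos_right' e4 p4 p8⟩
    exact (mul_eq_zero.1 e3.symm).resolve_right p8.ne'
  obtain ⟨a8p, b8z, c8p⟩ := k2
  have k3 : a5 = 0 ∧ c5 < 0 ∧ d5 < 0 ∧ c5 * d10 = d5 * c10 := by
    obtain ⟨w, s, e1, e3, e4, e6⟩ := H 1064 (by decide +kernel)
    have z0 : w 0 = 0 := s 0
    have z1 : w 1 = 0 := s 1
    have z2 : w 2 = 0 := s 2
    have p3 : 0 < w 3 := s 3
    have z4 : w 4 = 0 := s 4
    have p5 : 0 < w 5 := s 5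
    have z6 : w 6 = 0 := s 6
    have z7 : w 7 = 0 := s 7
    have z8 : w 8 = 0 := s 8
    have z9 : w 9 = 0 := s 9
    have p10 : 0 < w 10 := s 10
    simp only [z0, z1, z2, z4, z6, z7, z8, z9, mul_zero, add_zero, zero_add] at e1 e3 e4 e6
    refine ⟨?_, neg_of e4 p5 p10 c10p, neg_of e6 p5 p10 d10p, cross e4 e6 p5⟩
    rw [a10z, zero_mul, add_zero] at e1
    exact (mul_eq_zero.1 e1.symm).resolve_right p5.ne'
  obtain ⟨a5z, c5n, d5n, x3⟩ := k3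
  have k4 : a7 < 0 ∧ b7 = 0 ∧ c7 < 0 ∧ a7 * c8 = c7 * a8 := by
    obtain ⟨w, s, e1, e3, e4, e6⟩ := H 448 (by decide +kernel)
    have z0 : w 0 = 0 := s 0
    have z1 : w 1 = 0 := s 1
    have z2 : w 2 = 0 := s 2
    have z3 : w 3 = 0 := s 3
    have z4 : w 4 = 0 := s 4
    have z5 : w 5 = 0 := s 5
    have p6 : 0 < w 6 := s 6
    have p7 : 0 < w 7 := s 7
    have p8 : 0 < w 8 := s 8
    have z9 : w 9 = 0 := s 9
    have z10 : w 10 = 0 := s 10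
    simp only [z0, z1, z2, z3, z4, z5, z9, z10, mul_zero, add_zero, zero_add] at e1 e3 e4 e6
    refine ⟨neg_of e1 p7 p8 a8p, ?_, neg_of e4 p7 p8 c8p, cross e1 e4 p7⟩
    rw [b8z, zero_mul, add_zero] at e3
    exact (mul_eq_zero.1 e3.symm).resolve_right p7.ne'
  obtain ⟨a7n, b7z, c7n, x4⟩ := k4
  have k5 : 0 < c2 ∧ 0 < d2 ∧ b2 * c5 = c2 * b5 := by
    obtain ⟨w, s, e1, e3, e4, e6⟩ := H 102 (by decide +kernel)
    have z0 : w 0 = 0 := s 0
    have p1 : 0 < w 1 := s 1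
    have p2 : 0 < w 2 := s 2
    have z3 : w 3 = 0 := s 3
    have z4 : w 4 = 0 := s 4
    have p5 : 0 < w 5 := s 5
    have p6 : 0 < w 6 := s 6
    have z7 : w 7 = 0 := s 7
    have z8 : w 8 = 0 := s 8
    have z9 : w 9 = 0 := s 9
    have z10 : w 10 = 0 := s 10
    simp only [z0, z3, z4, z7, z8, z9, z10, mul_zero, add_zero, zero_add] at e1 e3 e4 e6
    exact ⟨pos_of e4 le_rfl p2 p5 c5n, pos_of e6 p6.le p2 p5 d5n, cross e3 e4 p2⟩
  obtain ⟨c2p, d2p, x5⟩ := k5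
  have k6 : 0 < b2 ∧ a2 * c7 = c2 * a7 := by
    obtain ⟨w, s, e1, e3, e4, e6⟩ := H 204 (by decide +kernel)
    have z0 : w 0 = 0 := s 0
    have z1 : w 1 = 0 := s 1
    have p2 : 0 < w 2 := s 2
    have p3 : 0 < w 3 := s 3
    have z4 : w 4 = 0 := s 4
    have z5 : w 5 = 0 := s 5
    have p6 : 0 < w 6 := s 6
    have p7 : 0 < w 7 := s 7
    have z8 : w 8 = 0 := s 8
    have z9 : w 9 = 0 := s 9
    have z10 : w 10 = 0 := s 10
    simp only [z0, z1, z4, z5, z8, z9, z10, mul_zero, add_zero, zero_add] at e1 e3 e4 e6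
    refine ⟨?_, cross e1 e4 p2⟩
    rw [b7z, zero_mul, add_zero] at e3
    exact pos_of_mul_pos_right' e3 p3 p2
  obtain ⟨b2p, x6⟩ := k6
  have b5n : b5 < 0 := by
    by_contra hb
    push Not at hb
    nlinarith [mul_nonneg c2p.le hb, mul_pos b2p (neg_pos.2 c5n)]
  have x7 : a0 * d7 = d0 * a7 := by
    obtain ⟨w, s, e1, e3, e4, e6⟩ := H 153 (by decide +kernel)
    have p0 : 0 < w 0 := s 0
    have z1 : w 1 = 0 := s 1
    have z2 : w 2 = 0 := s 2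
    have p3 : 0 < w 3 := s 3
    have p4 : 0 < w 4 := s 4
    have z5 : w 5 = 0 := s 5
    have z6 : w 6 = 0 := s 6
    have p7 : 0 < w 7 := s 7
    have z8 : w 8 = 0 := s 8
    have z9 : w 9 = 0 := s 9
    have z10 : w 10 = 0 := s 10
    simp only [z1, z2, z5, z6, z8, z9, z10, mul_zero, add_zero, zero_add] at e1 e3 e4 e6
    exact cross e1 e6 p0
  have x8 : c0 * d5 = d0 * c5 := by
    obtain ⟨w, s, e1, e3, e4, e6⟩ := H 1059 (by decide +kernel)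
    have p0 : 0 < w 0 := s 0
    have p1 : 0 < w 1 := s 1
    have z2 : w 2 = 0 := s 2
    have z3 : w 3 = 0 := s 3
    have z4 : w 4 = 0 := s 4
    have p5 : 0 < w 5 := s 5
    have z6 : w 6 = 0 := s 6
    have z7 : w 7 = 0 := s 7
    have z8 : w 8 = 0 := s 8
    have z9 : w 9 = 0 := s 9
    have p10 : 0 < w 10 := s 10
    simp only [z2, z3, z4, z6, z7, z8, z9, mul_zero, add_zero, zero_add] at e1 e3 e4 e6
    apply mul_right_cancel₀ p0.ne'
    linear_combination (-d5) * e4 + c5 * e6 + w 10 * x3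
  have k9 : ∃ r : ℝ, 0 < r ∧ a9 = -r * a2 ∧ b9 = -r * b2 ∧ d9 = -r * d2 := by
    obtain ⟨w, s, e1, e3, e4, e6⟩ := H 532 (by decide +kernel)
    have z0 : w 0 = 0 := s 0
    have z1 : w 1 = 0 := s 1
    have p2 : 0 < w 2 := s 2
    have z3 : w 3 = 0 := s 3
    have p4 : 0 < w 4 := s 4
    have z5 : w 5 = 0 := s 5
    have z6 : w 6 = 0 := s 6
    have z7 : w 7 = 0 := s 7
    have z8 : w 8 = 0 := s 8
    have p9 : 0 < w 9 := s 9
    have z10 : w 10 = 0 := s 10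
    simp only [z0, z1, z3, z5, z6, z7, z8, z10, mul_zero, add_zero, zero_add] at e1 e3 e4 e6
    refine ⟨w 2 / w 9, div_pos p2 p9, ?_, ?_, ?_⟩ <;> field_simp <;> linarith
  obtain ⟨r, rp, rfl, rfl, rfl⟩ := k9
  have k10 : 0 < d0 ∧ b0 * d2 = d0 * b2 := by
    obtain ⟨w, s, e1, e3, e4, e6⟩ := H 531 (by decide +kernel)
    have p0 : 0 < w 0 := s 0
    have p1 : 0 < w 1 := s 1
    have z2 : w 2 = 0 := s 2
    have z3 : w 3 = 0 := s 3
    have p4 : 0 < w 4 := s 4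
    have z5 : w 5 = 0 := s 5
    have z6 : w 6 = 0 := s 6
    have z7 : w 7 = 0 := s 7
    have z8 : w 8 = 0 := s 8
    have p9 : 0 < w 9 := s 9
    have z10 : w 10 = 0 := s 10
    simp only [z2, z3, z5, z6, z7, z8, z10, mul_zero, add_zero, zero_add] at e1 e3 e4 e6
    refine ⟨pos_of e6 le_rfl p0 p9 (by nlinarith [mul_pos rp d2p]), ?_⟩
    have := cross e3 e6 p0
    apply mul_right_cancel₀ rp.ne'
    linear_combination -this
  obtain ⟨d0p, x10⟩ := k10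
  have x11 : b5 * (a0 * c7 - c0 * a7) = -(c5 * a7 * b0) := by
    obtain ⟨w, s, e1, e3, e4, e6⟩ := H 417 (by decide +kernel)
    have p0 : 0 < w 0 := s 0
    have z1 : w 1 = 0 := s 1
    have z2 : w 2 = 0 := s 2
    have z3 : w 3 = 0 := s 3
    have z4 : w 4 = 0 := s 4
    have p5 : 0 < w 5 := s 5
    have z6 : w 6 = 0 := s 6
    have p7 : 0 < w 7 := s 7
    have p8 : 0 < w 8 := s 8
    have z9 : w 9 = 0 := s 9
    have z10 : w 10 = 0 := s 10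
    simp only [z1, z2, z3, z4, z6, z9, z10, mul_zero, add_zero, zero_add] at e1 e3 e4 e6
    rw [a5z] at e1
    rw [b7z, b8z] at e3
    apply mul_right_cancel₀ p0.ne'
    linear_combination (-b5 * c7) * e1 + b5 * a7 * e4 - c5 * a7 * e3 + b5 * w 8 * x4
  have x12 : d2 * b5 * a7 = d5 * b2 * a7 + d7 * a2 * b5 := by
    obtain ⟨w, s, e1, e3, e4, e6⟩ := H 676 (by decide +kernel)
    have z0 : w 0 = 0 := s 0
    have z1 : w 1 = 0 := s 1
    have p2 : 0 < w 2 := s 2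
    have z3 : w 3 = 0 := s 3
    have z4 : w 4 = 0 := s 4
    have p5 : 0 < w 5 := s 5
    have z6 : w 6 = 0 := s 6
    have p7 : 0 < w 7 := s 7
    have z8 : w 8 = 0 := s 8
    have p9 : 0 < w 9 := s 9
    have z10 : w 10 = 0 := s 10
    simp only [z0, z1, z3, z4, z6, z8, z10, mul_zero, add_zero, zero_add] at e1 e3 e4 e6
    rw [a5z] at e1
    rw [b7z] at e3
    have hk : w 2 - r * w 9 ≠ 0 := by
      intro h0
      have : a7 * w 7 = 0 := by linear_combination -e1 - a2 * h0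
      nlinarith [mul_pos (neg_pos.2 a7n) p7]
    apply mul_right_cancel₀ hk
    linear_combination (-b5 * a7) * e6 + d5 * a7 * e3 + d7 * b5 * e1
  have y12 : d2 * c5 * c7 = c2 * (c7 * d5 + d7 * c5) := by
    apply mul_right_cancel₀ (mul_pos_of_neg_of_neg b5n a7n).ne'
    linear_combination c5 * c7 * x12 + d5 * a7 * c7 * x5 + d7 * b5 * c5 * x6
  have y11 : d2 * (d7 * c5 - c7 * d5) = d7 * d5 * c2 := by
    apply mul_right_cancel₀ (mul_pos d0p (mul_pos_of_neg_of_neg b5n a7n)).ne'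
    linear_combination (-(d7 * d5 * d2)) * x11 + b5 * c7 * d5 * d2 * x7 - b5 * a7 * d7 * d2 * x8
      + c5 * a7 * d7 * d5 * x10 + a7 * d7 * d5 * d0 * x5
  refine ⟨(mul_pos_of_neg_of_neg c7n d5n).ne', ?_⟩
  apply mul_right_cancel₀ c2p.ne'
  linear_combination c5 * c7 * y11 - (d7 * c5 - c7 * d5) * y12

theorem nonrat {e : ℕ} (q : Fin 11 → Fin e → ℚ)
    (H : ∀ S, Fa p S ↔ Fa (fun i k => ((q i k : ℚ) : ℝ)) S) : False := by
  obtain ⟨a, ha⟩ := rat_comb q H 1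
  obtain ⟨b, hb⟩ := rat_comb q H 3
  obtain ⟨c, hc⟩ := rat_comb q H 4
  obtain ⟨d, hd⟩ := rat_comb q H 6
  obtain ⟨h1, h2⟩ := alg (a 0) (a 1) (a 2) (a 3) (a 4) (a 5) (a 6) (b 0) (b 1) (b 2) (b 3) (b 4) (b 5)
    (b 6) (c 0) (c 1) (c 2) (c 3) (c 4) (c 5) (c 6) (d 0) (d 1) (d 2) (d 3) (d 4) (d 5) (d 6) (by
      intro m hm
      obtain ⟨w, hw, hs⟩ := inW_of_fa m ((H _).1 (face_mask m hm))
      have e1 := ha w hw
      have e3 := hb w hw
      have e4 := hc w hw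
      have e6 := hd w hw
      rw [Fin.sum_univ_seven] at e1 e3 e4 e6
      exact ⟨w, hs, e1, e3, e4, e6⟩)
  exact no_golden (d 3 * c 2) (c 3 * d 2) (by exact_mod_cast h1) (by exact_mod_cast h2)

end Pool.Agent.H.MP_73fd2f_co
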